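import Pool.Agent.H458.AR.Final

/-!
# Every 2-Selmer rank occurs for a positive proportion of all elliptic curves over `ℚ`

All elliptic curves `E : y² = x³ + a x + b` over `ℚ` (`a`, `b` integers, `4 a³ + 27 b² ≠ 0`) are ordered by the
height `max (|a|³, b²)` of the problem. For EVERY `d ≥ 0` the curves whose 2-Selmer group has order exactly `2 ^ d`
have positive lower density (as predicted by the Poonen–Rains conjecture for `p = 2`, `F = ℚ`, since all the constants
`C_{2,d}` are positive); this is true also if every curve is counted only once, by its minimal model.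

The 2-Selmer group `Sel2` is defined with continuous cocycles of the absolute Galois group of `ℚ` with values in the
points of order two of `E`, up to coboundaries, which are trivial in `H ^ 1 (ℚ_v, E)` at all the places `v` of `ℚ`.

Idea of the proof. Let `S` be a set of `n` primes `Q = 1` modulo `8` and consider the curves with `Q ∣ b`, `-a` not a
square modulo `Q` for `Q ∈ S`. The classes which may be ramified at the prime of degree two over `Q` of the cubic field
form a group `Λ` of order at least `2 ^ n`, isotropic in `(F₂ × F₂) ^ n`; the 2-Selmer groups of the `2 ^ n` twists of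
`E` by the divisors of `∏ Q` are the intersections of `Λ` with the coordinate Lagrangians. By a count of pairs of
integral ternary quadratic forms for most `E` no class of small weight in `Λ` is ramified. By a graph theoretic
argument (Ramsey, Sauer–Shelah) then all dimensions `0, …, r` occur among these intersections.
-/

set_option autoImplicit false

open Filter

namespace Pool.Agent.Results.MP_8cb858_nt.AllTwoSelmerRanks

open Pool.Agent.H458.AR (Sel2)
open Pool.Agent.N874.PP (sW)

/-- The pairs `(a, b)` with `4 a³ + 27 b² ≠ 0` and `max (|a|³, b²) ≤ X`. -/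
def Curves (X : ℕ) : Set (ℤ × ℤ) :=
  {p | 4 * p.1 ^ 3 + 27 * p.2 ^ 2 ≠ 0 ∧ |p.1| ^ 3 ≤ X ∧ p.2 ^ 2 ≤ X}

/-- There is no prime number `q` with `q⁴ ∣ a` and `q⁶ ∣ b`. -/
def Minimal (p : ℤ × ℤ) : Prop := ∀ q : ℕ, q.Prime → ¬ ((q : ℤ) ^ 4 ∣ p.1 ∧ (q : ℤ) ^ 6 ∣ p.2)

/-- The order of the 2-Selmer group over `ℚ` of `y² = x³ + a x + b`. -/
noncomputable def selmerOrder (p : ℤ × ℤ) : ℕ := Nat.card (Sel2 (sW (p.1 : ℚ) (p.2 : ℚ)))

theorem finite_curves (X : ℕ) : (Curves X).Finite := by
  refine (Pool.Agent.H458.AR.cv_card (X := X) (Y := X + 1) ?_).1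
  have h : X + 1 ≤ (X + 1) ^ 6 := Nat.le_self_pow (by norm_num) _
  omega

/-- For every `d` a positive proportion of all elliptic curves over `ℚ` has a 2-Selmer group of order `2 ^ d`. -/
theorem result (d : ℕ) : (∀ X : ℕ, (Curves X).Finite) ∧
    ∃ c : ℝ, 0 < c ∧ ∀ᶠ X : ℕ in atTop, 0 < (Curves X).ncard ∧
      c * ((Curves X).ncard : ℝ) ≤
        (({p ∈ Curves X | Minimal p ∧ selmerOrder p = 2 ^ d}.ncard : ℕ) : ℝ) := by
  refine ⟨finite_curves, ?_⟩
  obtain ⟨c, hc, X₀, h⟩ := Pool.Agent.H458.AR.main Pool.Agent.H458.AR.partsAR d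
  refine ⟨c, hc, ?_⟩
  filter_upwards [eventually_ge_atTop (max X₀ 1)] with X hX
  refine ⟨?_, (h X ((le_max_left _ _).trans hX)).2⟩
  have h1 : 1 ≤ X := (le_max_right _ _).trans hX
  rw [Set.ncard_pos (finite_curves X)]
  refine ⟨(0, 1), by norm_num, by simp, ?_⟩
  simpa using h1

end Pool.Agent.Results.MP_8cb858_nt.AllTwoSelmerRanks
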