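import Mathlib
import Pool.Agent.H451.TB.Def
import Pool.Agent.H451.TB.Fin2

/-!
# The Selmer groups of the twists by the monomials in independent random elements are independent

`K = ℚ(√-3)`, `E_D : y² + D y = x³`; `a = (a_1, …, a_M)` runs through all the tuples of squarefree elements of
`𝓞 K`, `1` modulo `3`, of norm at most `X` and in given classes `4`, `7` modulo `9`, and one considers the
`3`-Selmer groups and the `√-3`-Selmer groups of the twists `E_D` for all `D = ∏ a_l ^ (e_l)` whose norm is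
not `1` modulo `9`: there are `3 ^ (M - 1)` of them up to isogeny. The definitions are in
`Pool.Agent.H451.TB.Def`.
-/

set_option autoImplicit false

namespace Pool.Agent.Results.MP_8cb858_nt.IndependenceOfTwists

open NumberField Pool.Agent.H451.TB
open scoped Classical

/-- **The joint law of the Selmer groups of all the twists.** -/
theorem result (K : Type) [Field K] [NumberField K] [IsCyclotomicExtension {3} ℚ K] (M : ℕ)
    (r : Fin M → ℕ) (hr : ∀ l, r l = 4 ∨ r l = 7) :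
    (∃ c : ℝ, 0 < c ∧ ∃ X₀ : ℕ, ∀ X : ℕ, X₀ ≤ X →
      c * (X : ℝ) ^ M ≤ ((Box K r X).ncard : ℝ)) ∧
    (∀ X : ℕ, ∀ a ∈ Box K r X, ∀ e, Admissible r e → ∃ ρ s : ℕ,
      (SelRoot ((twist a e : 𝓞 K) : K)).ncard = 3 ^ (ρ + 1) ∧
      Nat.card (Sel3 ((twist a e : 𝓞 K) : K)) = 3 ^ (s + 1) ∧ ρ ≤ s ∧ s ≤ 2 * ρ ∧
      rank ((twist a e : 𝓞 K) : K) ≤ 2 * ρ) ∧
    (1 ≤ M → Independent r (full r) ∧ (full r).card = 3 ^ (M - 1)) ∧
    (HasSum prob 1 ∧ prob 0 = 2 * PRConst 3 0) ∧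
    ∀ L : Finset (Fin M → ZMod 3), Independent r L →
      (∀ ρ : (Fin M → ZMod 3) → ℕ, Filter.Tendsto (fun X : ℕ =>
        ({a | a ∈ Box K r X ∧ ∀ e ∈ L,
          (SelRoot ((twist a e : 𝓞 K) : K)).ncard = 3 ^ (ρ e + 1)}.ncard : ℝ) /
        ((Box K r X).ncard : ℝ)) Filter.atTop (nhds (∏ e ∈ L, prob (ρ e)))) ∧
      Filter.Tendsto (fun X : ℕ =>
        ({a | a ∈ Box K r X ∧ ∀ e ∈ L, Nat.card (Sel3 ((twist a e : 𝓞 K) : K)) = 3}.ncard : ℝ) /
        ((Box K r X).ncard : ℝ)) Filter.atTop (nhds ((2 * PRConst 3 0) ^ L.card)) ∧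
      (L.Nonempty → ∀ ρ : ℕ, Filter.Tendsto (fun X : ℕ =>
        (∑ᶠ a ∈ Box K r X, (share L ρ a - prob ρ) ^ 2) / ((Box K r X).ncard : ℝ)) Filter.atTop
        (nhds (prob ρ * (1 - prob ρ) / (L.card : ℝ)))) :=
  final_mono K M r hr

end Pool.Agent.Results.MP_8cb858_nt.IndependenceOfTwists
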