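import Mathlib
import Pool.Agent.H514.MX.Fin3

/-!
# The moments of the 2-Selmer group over the elliptic curves with full rational 2-torsion

All elliptic curves `E/ℚ` all of whose 2-torsion is rational, ordered by height. We determine for
which real `s ≥ 0` the moment of order `s` of `#Sel₂(E/ℚ)` is bounded: exactly for `s ≤ 2`. For
`s > 2` the average of `(#Sel₂)^s` over the curves of height at most `H` is at least
`(log H) ^ (2 ^ (s - 1) - 5 / 2 + 2 ^ (1 - s) - ε)`, and for the integers `m ≥ 3` the exponent is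
exactly `2 ^ (m - 1) - 5 / 2 + 2 ^ (1 - m)`. The proportion of the curves with `#Sel₂ ≥ N` is
`O(N ^ (-2))`, uniformly in the height, and the exponent `2` is optimal. The same holds for
`2 ^ rank * #Ш[2]`.

Outline of the lower bounds. The curves `y² = (x + a + b) (x - 2 a + b) (x - 2 b + a)`, `a`, `b`
positive and coprime, have a 2-Selmer group with at least `2 ^ (#S - #T - 17)` elements, where `S`
is the set of the primes dividing `a - b` with `(3 a / p) = 1` and `T` is the set of the primes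
dividing `a b`: the products of primes of `S` that are squares at `2`, at the small primes and at
the primes of `T` give locally trivial classes. The moment of order `s` of `2 ^ (#S - #T)` is
bounded below by an expansion over the divisors of `a - b`, Cauchy's inequality over the residue
classes and an estimate for the sums of `2 ^ (- s ω(l)) (l / f)` (a large sieve for the bad moduli
`f`). The upper bounds are those of the landed theorem `MomentsFullTwoTorsion`.
-/

set_option autoImplicit false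

namespace Pool.Agent.Results.MP_8cb858_nt.SelmerMomentTransition

open Finset Filter

open Pool.Agent.W262.SH (Sha2)

open Pool.Agent.H514.MX (Sel2)

/-- the curve `y² = x³ + A x + B` over `ℚ` -/
def E (A B : ℤ) : WeierstrassCurve ℚ := ⟨0, 0, 0, (A : ℚ), (B : ℚ)⟩

open Classical in
/-- The pairs `(A, B)` of integers such that `4 A³ + 27 B² ≠ 0`, there is no prime `p` with
`p⁴ ∣ A` and `p⁶ ∣ B`, the height `max (4 |A|³) (27 B²)` is at most `H`, and `Z/2 x Z/2` embeds in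
the group of the rational points of `y² = x³ + A x + B`. (The bounds `|A|, |B| ≤ H` follow from the
bound of the height. Every elliptic curve over `ℚ` is isomorphic to `E A B` for exactly one pair
with the first two properties.) -/
noncomputable def Fam (H : ℕ) : Finset (ℤ × ℤ) :=
  ((Icc (-(H : ℤ)) H) ×ˢ (Icc (-(H : ℤ)) H)).filter (fun c : ℤ × ℤ =>
    4 * c.1 ^ 3 + 27 * c.2 ^ 2 ≠ 0 ∧ 4 * |c.1| ^ 3 ≤ H ∧ 27 * c.2 ^ 2 ≤ H ∧
    (∀ p : ℕ, p.Prime → ¬ ((p : ℤ) ^ 4 ∣ c.1 ∧ (p : ℤ) ^ 6 ∣ c.2)) ∧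
    ∃ f : ZMod 2 × ZMod 2 →+ (E c.1 c.2).toAffine.Point, Function.Injective f)

lemma Fam_eq (H : ℕ) : Fam H = Pool.Agent.W307.RT.Cv 2 H := by
  classical
  unfold Fam Pool.Agent.W307.RT.Cv
  apply filter_congr
  intro c _
  have h : Pool.Agent.W307.RT.HasT 2 (Pool.Agent.W307.RT.Sh c.1 c.2) ↔
      ∃ f : ZMod 2 × ZMod 2 →+ (E c.1 c.2).toAffine.Point, Function.Injective f :=
    Pool.Agent.W307.RT.tors_iff
  rw [h]

/-- `#Sel₂(E/ℚ)` -/
noncomputable def sel (c : ℤ × ℤ) : ℝ := Nat.card (Sel2 (E c.1 c.2))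

/-- `2 ^ rank E(ℚ) * #Ш(E/ℚ)[2]` -/
noncomputable def rsh (c : ℤ × ℤ) : ℝ :=
  (2 : ℝ) ^ Module.finrank ℤ (E c.1 c.2).toAffine.Point * Nat.card (Sha2 (E c.1 c.2))

/-- the average of `(f E) ^ s` over the curves of height at most `H` -/
noncomputable def mom (f : ℤ × ℤ → ℝ) (s : ℝ) (H : ℕ) : ℝ :=
  (∑ c ∈ Fam H, f c ^ s) / (Fam H).card

open Classical in
/-- the number of the curves of height at most `H` with `f E ≥ N` -/
noncomputable def big (f : ℤ × ℤ → ℝ) (N : ℝ) (H : ℕ) : ℝ :=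
  ((Fam H).filter (fun c => N ≤ f c)).card

/-- the exponent `2 ^ (s - 1) - 5 / 2 + 2 ^ (1 - s)` -/
noncomputable def th (s : ℝ) : ℝ := (2 : ℝ) ^ (s - 1) - 5 / 2 + (2 : ℝ) ^ (1 - s)

/-- the behaviour of the moments of the function `f` of the curve -/
def Transition (f : ℤ × ℤ → ℝ) : Prop :=
  (∀ s : ℝ, 0 ≤ s → ((∃ C : ℝ, ∀ H : ℕ, mom f s H ≤ C) ↔ s ≤ 2)) ∧
  (∀ s : ℝ, 2 < s → Tendsto (mom f s) atTop atTop) ∧
  (∀ s ε : ℝ, 2 < s → 0 < ε → ∀ᶠ H : ℕ in atTop, (Real.log H) ^ (th s - ε) ≤ mom f s H) ∧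
  (∀ m : ℕ, 3 ≤ m → Tendsto (fun H : ℕ => Real.log (mom f m H) / Real.log (Real.log H)) atTop
    (nhds (th m))) ∧
  (∃ C : ℝ, ∀ (H : ℕ) (N : ℝ), 0 < N → big f N H ≤ C * N ^ (-(2 : ℝ)) * (Fam H).card) ∧
  (∀ δ : ℝ, 0 < δ → ¬ ∃ C : ℝ, ∀ (H : ℕ) (N : ℝ), 0 < N →
    big f N H ≤ C * N ^ (-(2 + δ)) * (Fam H).card)

lemma th_eq (s : ℝ) : th s = Pool.Agent.H514.MX.ex s := by
  unfold th Pool.Agent.H514.MX.ex
  rw [Real.rpow_sub (by norm_num), Real.rpow_sub (by norm_num), Real.rpow_neg (by norm_num),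
    Real.rpow_one]
  ring

lemma mom_eq (f : ℤ × ℤ → ℝ) (s : ℝ) (H : ℕ) : mom f s H = Pool.Agent.H514.MX.mom f s H := by
  unfold mom Pool.Agent.H514.MX.mom
  rw [Fam_eq]

lemma big_eq (f : ℤ × ℤ → ℝ) (N : ℝ) (H : ℕ) : big f N H = Pool.Agent.H514.MX.big f N H := by
  unfold big Pool.Agent.H514.MX.big
  rw [Fam_eq]

lemma trans_of {f : ℤ × ℤ → ℝ} (hf : ∀ c, 0 ≤ f c)
    (hb : ∃ C : ℝ, ∀ H : ℕ, Pool.Agent.H514.MX.mom f (2 : ℕ) H ≤ C)
    (h1 : ∀ s ε : ℝ, 0 < s → 0 < ε → ∀ᶠ H : ℕ in atTop,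
      (Real.log H) ^ (Pool.Agent.H514.MX.ex s - ε) ≤ Pool.Agent.H514.MX.mom f s H)
    (h2 : ∀ m : ℕ, 3 ≤ m → Tendsto (fun H : ℕ => Real.log (Pool.Agent.H514.MX.mom f m H) /
      Real.log (Real.log H)) atTop (nhds (Pool.Agent.H514.MX.ex m))) : Transition f := by
  unfold Transition
  simp only [Fam_eq, th_eq, mom_eq, big_eq]
  refine ⟨fun s hs => Pool.Agent.H514.MX.crit hf hb h1 hs, fun s hs => ?_,
    fun s ε hs hε => h1 s ε (by linarith) hε, h2, Pool.Agent.H514.MX.tail_le hf hb,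
    fun δ hδ => Pool.Agent.H514.MX.tail_opt hf h1 hδ⟩
  have h3 := Pool.Agent.H514.MX.inf_gen hs (fun ε hε => h1 s ε (by linarith) hε)
  refine h3.congr fun H => ?_
  rw [mom_eq]

/-- **Theorem.** Let `E` run over the elliptic curves over `ℚ` with full rational 2-torsion,
ordered by height. There are infinitely many, all the groups `Sel₂(E/ℚ)`, `Ш(E/ℚ)[2]` are finite,
and for `f = #Sel₂` and for `f = 2 ^ rank * #Ш[2]`: the moment of order `s ≥ 0` is bounded if and
only if `s ≤ 2`; it tends to infinity for `s > 2`, at least as `(log H) ^ (th s - ε)`; for the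
integers `m ≥ 3` it is `(log H) ^ (th m + o(1))`; the proportion of the curves with `f ≥ N` is
`O(N ^ (-2))` uniformly in the height and the exponent is optimal. -/
theorem result :
    Tendsto (fun H : ℕ => (Fam H).card) atTop atTop ∧
    (∀ H : ℕ, ∀ c ∈ Fam H, Finite (Sel2 (E c.1 c.2)) ∧ Finite (Sha2 (E c.1 c.2))) ∧
    Transition sel ∧ Transition rsh := by
  refine ⟨?_, ?_, ?_, ?_⟩
  · simp only [Fam_eq]
    exact Pool.Agent.H514.MX.card_tend
  · intro H c hc
    rw [Fam_eq] at hc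
    exact ⟨Pool.Agent.H514.MX.sl_fin hc, Pool.Agent.H514.MX.sha_mem hc⟩
  · have h0 : sel = Pool.Agent.H514.MX.sl := rfl
    rw [h0]
    exact trans_of Pool.Agent.H514.MX.sl_nonneg Pool.Agent.H514.MX.bdd_sl
      (fun s ε hs hε => Pool.Agent.H514.MX.mom_low hs hε)
      (fun m hm => Pool.Agent.H514.MX.lim_sl hm)
  · have h0 : rsh = Pool.Agent.H514.MX.ws := by
      funext c
      rw [Pool.Agent.H514.MX.ws_eq]
      rfl
    rw [h0]
    exact trans_of Pool.Agent.H514.MX.ws_nonneg Pool.Agent.H514.MX.bdd_ws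
      (fun s ε hs hε => Pool.Agent.H514.MX.mom_low' hs hε)
      (fun m hm => Pool.Agent.H514.MX.lim_ws hm)

end Pool.Agent.Results.MP_8cb858_nt.SelmerMomentTransition
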