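import Mathlib
import Pool.Agent.H454.TG.Cheb

/-!
# The law of the Selmer groups inside almost every group of cubic twists generated by primes

`K` is the field of third roots of unity and `E_D : y² + D y = x³`. Let `π₀, …, π_m` be prime elements
of `𝓞 K` that are `1` modulo `3`. They generate a subgroup of order `3^(m+1)` of `K*/K*³`, the group of
the cubic twists of `E_1`; its elements are `D = ∏ πᵢ ^ eᵢ`, `e ∈ {0, 1, 2}^(m+1)`. If not all the norms
of the `πᵢ` are `1` modulo `9`, then exactly `2 · 3^m` of these `D` have a norm different from `1`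
modulo `9`.

The theorem: for almost all tuples of primes the Selmer groups of these `2 · 3^m` curves, for the one
fixed tuple, follow the law `prob`: the mean over the tuples of the square of the difference between
the share of the `D` with `#Sel_{√-3}(E_D) = 3^(r+1)` and `prob r` is at most
`21 · 3^(-r) (23/27)^(m+1)`, up to an error which tends to zero when the primes tend to infinity.
In particular (`r = 0`) the share of the `D` for which the `3`-Selmer group of `E_D` over `K` is as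
small as possible is close to `2 C_{3,0} = ∏_{j ≥ 1} (1 + 3^{-j})^{-1} = 0.639...`, `C_{3,0}` the constant
of Poonen and Rains.

The starting library has the law for the average over `D` (`CubicTwistsSelmerLaw`, `TuplesOfPrimes`).
Here the primes are fixed and only the exponents vary: the law holds inside almost every finite group
of twists generated by primes. The new input (`Pool/Agent/H454/TG`): for two exponent vectors `e`, `e'`
the coranks of the two Laplacian matrices are independent up to an error `9 · 3^{-n}`, `n` the number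
of the primes dividing only one of the two; this comes from a contraction property of the Markov chain
of the coranks when rows and columns are added. Used from the library: the equidistribution of
the cubic residue symbols in boxes (helper363, helper710, `Pool.Agent.R338.CK`), the description of the
Selmer group by the symbols (helper703, helper696 and others), the `3`-Selmer group (helper419).
-/

set_option autoImplicit false

namespace Pool.Agent.Results.MP_8cb858_nt.TwistGroups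

open NumberField WeierstrassCurve
open Pool.Agent.TH841.SH.D (Pt act Gal Coch)
open Pool.Agent.TH841.NF.D (IsShaCoc)
open scoped Classical

/-- The curve `E_D : y² + D y = x³`. -/
def curve {K : Type} [Field K] (D : K) : WeierstrassCurve K := ⟨0, 0, D, 0, 0⟩

section
variable {K : Type} [Field K] [NumberField K]

/-- The group of the continuous cocycles of the absolute Galois group of `K` with values in `E_D[3]`
that are coboundaries in `E_D` at all the places of `K`. -/
def Cocycles (D : K) : AddSubgroup (Coch (curve D)) where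
  carrier := {f | IsShaCoc (curve D) f ∧ ∀ σ, 3 • f σ = 0}
  zero_mem' := (Pool.Agent.R419.KL.coc3 D).zero_mem'
  add_mem' := (Pool.Agent.R419.KL.coc3 D).add_mem'
  neg_mem' := (Pool.Agent.R419.KL.coc3 D).neg_mem'

/-- The group of the coboundaries of the points of `E_D[3]`. -/
def Coboundaries (D : K) : AddSubgroup (Coch (curve D)) where
  carrier := {f | ∃ P : Pt (curve D) (AlgebraicClosure K), 3 • P = 0 ∧
    ∀ σ : Gal K, f σ = act (curve D) σ.toAlgHom P - P}
  zero_mem' := (Pool.Agent.R419.KL.cob3 D).zero_mem'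
  add_mem' := (Pool.Agent.R419.KL.cob3 D).add_mem'
  neg_mem' := (Pool.Agent.R419.KL.cob3 D).neg_mem'

/-- The `3`-Selmer group of `E_D` over `K`: the kernel of `H¹(K, E_D[3]) → ∏ H¹(K_v, E_D)`. -/
def Sel3 (D : K) : Type := Cocycles D ⧸ (Coboundaries D).addSubgroupOf (Cocycles D)

/-- The Selmer group of the endomorphism `√-3`: the continuous cocycles with values in its kernel
`{0, (0, 0), (0, -D)}` (a trivial Galois module) that are coboundaries in `E_D` at all the places. -/
def SelRoot (D : K) : Set (Coch (curve D)) :=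
  {f | IsShaCoc (curve D) f ∧ ∀ σ, f σ = 0 ∨ ∃ y h, f σ = Affine.Point.some 0 y h}

/-- The rank of `E_D(K)` over `ℤ`. -/
noncomputable def rank (D : K) : ℕ := Module.finrank ℤ (curve D).toAffine.Point

/-- `P i` consists of prime elements `≡ 1` modulo `3` of norm at most `X i`, the sets are disjoint,
and `1 ≤ z ≤ X i` for all `i`. -/
structure Sets {m : ℕ} (P : Fin (m + 1) → Finset (𝓞 K)) (X : Fin (m + 1) → ℕ) (z : ℕ) : Prop where
  one_le : 1 ≤ z
  z_le : ∀ i, z ≤ X i
  primes : ∀ i, ∀ π ∈ P i, Prime π ∧ (3 : 𝓞 K) ∣ π - 1 ∧ Algebra.norm ℤ π ≤ X i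
  disjoint : ∀ i l, i ≠ l → Disjoint (P i) (P l)

/-- The tuples `p` with `p i ∈ P i` for which some norm is not `1` modulo `9`. -/
def Tuples {m : ℕ} (P : Fin (m + 1) → Finset (𝓞 K)) : Set (Fin (m + 1) → 𝓞 K) :=
  {p | (∀ i, p i ∈ P i) ∧ ∃ i, ¬ (9 : ℤ) ∣ Algebra.norm ℤ (p i) - 1}

/-- `D = ∏ p i ^ (e i)`, `e i ∈ {0, 1, 2}`. -/
def twist {n : ℕ} (p : Fin n → 𝓞 K) (e : Fin n → ZMod 3) : 𝓞 K := ∏ i, p i ^ (e i).val

/-- The exponents for which the norm of `D` is not `1` modulo `9`. -/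
def Twists {n : ℕ} (p : Fin n → 𝓞 K) : Set (Fin n → ZMod 3) :=
  {e | ¬ (9 : ℤ) ∣ Algebra.norm ℤ (twist p e) - 1}

/-- The share of those exponents `e` for which `D = ∏ p i ^ (e i)` has the property `Q`. -/
noncomputable def share {n : ℕ} (p : Fin n → 𝓞 K) (Q : K → Prop) : ℝ :=
  ({e | e ∈ Twists p ∧ Q ((twist p e : 𝓞 K) : K)}.ncard : ℝ) / ((Twists p).ncard : ℝ)

/-- The share of the exponents with `#Sel_{√-3}(E_D) = 3 ^ (r + 1)`. -/
noncomputable def shareRoot {n : ℕ} (p : Fin n → 𝓞 K) (r : ℕ) : ℝ :=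
  share p fun D : K => (SelRoot D).ncard = 3 ^ (r + 1)

/-- The share of the exponents for which the `3`-Selmer group of `E_D` has order `3`. -/
noncomputable def shareThree {n : ℕ} (p : Fin n → 𝓞 K) : ℝ :=
  share p fun D : K => Nat.card (Sel3 D) = 3

end

/-- `∏_{i ≥ 0} (1 - 3^{-(2 i + 1)}) / ((3 - 1) (9 - 1) ⋯ (3 ^ r - 1))`, the limit of the probability that
a random symmetric matrix over the field with three elements has corank `r`. -/
noncomputable def prob (r : ℕ) : ℝ :=
  (∏' i : ℕ, (1 - (1 / 3 : ℝ) ^ (2 * i + 1))) / ∏ i ∈ Finset.range r, ((3 : ℝ) ^ (i + 1) - 1)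

/-- The constant `C_{p,d} = ∏_{j ≥ 0} (1 + p^{-j})^{-1} ∏_{i = 1}^d p / (p^i - 1)` of Poonen and Rains. -/
noncomputable def PRConst (p d : ℕ) : ℝ :=
  (∏' j : ℕ, (1 + (1 / (p : ℝ)) ^ j)⁻¹) * ∏ i ∈ Finset.Icc 1 d, (p : ℝ) / ((p : ℝ) ^ i - 1)

/-- The error term. -/
noncomputable def err (C : ℝ) (m : ℕ) (X : Fin (m + 1) → ℕ) (z : ℕ) : ℝ :=
  144 ^ (m + 1) * 3 ^ (m * (m + 1) / 2) * C * (z : ℝ) ^ (-(1 / 24 : ℝ)) * ∏ i, (X i : ℝ)

/-- **Theorem.** (1) For the sets `P i` of primes and each tuple of primes: exactly `2 · 3^m` exponents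
belong to `Twists p`, and for each of them `#Sel_{√-3} = 3^(r+1)`, `#Sel_3 = 3^(s+1)` with
`r ≤ s ≤ 2 r`, `r ≤ m` and `rank ≤ 2 r`. (2) The mean square deviations. (3) Almost all tuples of primes:
for every `ε > 0`, all `m ≥ M(ε)` and all sets of primes of norms at most `X i`, where
`X i ≥ z ≥ z₀(ε, m)`, with at least `z^(-1/48) ∏ X i` tuples: all but a proportion `ε` of the tuples have
the property that, among the `2 · 3^m` twists in the group generated by the tuple, the share of the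
curves with `#Sel_{√-3} = 3^(r+1)` is within `ε` of `prob r` for all `r`, and the share of the curves with
`#Sel_3 = 3` is within `ε` of `2 C_{3,0}`. -/
theorem result : (∃ C : ℝ, 0 < C ∧ ∀ (K : Type) [Field K] [NumberField K]
    [IsCyclotomicExtension {3} ℚ K] (m : ℕ) (P : Fin (m + 1) → Finset (𝓞 K))
    (X : Fin (m + 1) → ℕ) (z : ℕ), Sets P X z →
    (∀ p ∈ Tuples P, (Twists p).ncard = 2 * 3 ^ m ∧ ∀ e ∈ Twists p, ∃ r s : ℕ,
      (SelRoot ((twist p e : 𝓞 K) : K)).ncard = 3 ^ (r + 1) ∧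
      Nat.card (Sel3 ((twist p e : 𝓞 K) : K)) = 3 ^ (s + 1) ∧ r ≤ m ∧ r ≤ s ∧ s ≤ 2 * r ∧
      rank ((twist p e : 𝓞 K) : K) ≤ 2 * r) ∧
    (∀ r : ℕ, ∑ᶠ p ∈ Tuples P, (shareRoot p r - prob r) ^ 2 ≤
      21 / 3 ^ r * (23 / 27) ^ (m + 1) * ((Tuples P).ncard : ℝ) + err C m X z) ∧
    ∑ᶠ p ∈ Tuples P, (shareThree p - 2 * PRConst 3 0) ^ 2 ≤
      21 * (23 / 27) ^ (m + 1) * ((Tuples P).ncard : ℝ) + err C m X z) ∧
    ∀ ε : ℝ, 0 < ε → ∃ M : ℕ, ∀ m : ℕ, M ≤ m → ∃ z₀ : ℕ, ∀ (K : Type) [Field K] [NumberField K]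
      [IsCyclotomicExtension {3} ℚ K] (P : Fin (m + 1) → Finset (𝓞 K))
      (X : Fin (m + 1) → ℕ) (z : ℕ), Sets P X z → z₀ ≤ z →
      ∏ i, (X i : ℝ) ≤ (z : ℝ) ^ (1 / 48 : ℝ) * ((Tuples P).ncard : ℝ) →
      ({p | p ∈ Tuples P ∧ ¬ ((∀ r : ℕ, |shareRoot p r - prob r| ≤ ε) ∧
        |shareThree p - 2 * PRConst 3 0| ≤ ε)}.ncard : ℝ) ≤ ε * ((Tuples P).ncard : ℝ) := by
  obtain ⟨C, hC0, hC⟩ := Pool.Agent.H454.TG.main
  have hPR : 2 * PRConst 3 0 = prob 0 := by
    have h : prob 0 = 2 * ∏' j : ℕ, (1 + (1 / (3 : ℝ)) ^ j)⁻¹ := Pool.Agent.H454.TG.const_eq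
    rw [h]
    unfold PRConst
    simp
  have hmain : ∀ (K : Type) [Field K] [NumberField K]
    [IsCyclotomicExtension {3} ℚ K] (m : ℕ) (P : Fin (m + 1) → Finset (𝓞 K))
    (X : Fin (m + 1) → ℕ) (z : ℕ), Sets P X z →
    (∀ p ∈ Tuples P, (Twists p).ncard = 2 * 3 ^ m ∧ ∀ e ∈ Twists p, ∃ r s : ℕ,
      (SelRoot ((twist p e : 𝓞 K) : K)).ncard = 3 ^ (r + 1) ∧
      Nat.card (Sel3 ((twist p e : 𝓞 K) : K)) = 3 ^ (s + 1) ∧ r ≤ m ∧ r ≤ s ∧ s ≤ 2 * r ∧
      rank ((twist p e : 𝓞 K) : K) ≤ 2 * r) ∧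
    (∀ r : ℕ, ∑ᶠ p ∈ Tuples P, (shareRoot p r - prob r) ^ 2 ≤
      21 / 3 ^ r * (23 / 27) ^ (m + 1) * ((Tuples P).ncard : ℝ) + err C m X z) ∧
    (∀ p ∈ Tuples P, shareThree p = shareRoot p 0) ∧ (Tuples P).Finite :=
    fun K _ _ _ m P X z hS => hC K m P X z ⟨hS.one_le, hS.z_le, hS.primes, hS.disjoint⟩
  refine ⟨⟨C, hC0, fun K _ _ _ m P X z hS => ?_⟩, fun ε hε => ?_⟩
  · obtain ⟨h1, h2, h3, -⟩ := hmain K m P X z hS
    refine ⟨h1, h2, ?_⟩
    have h4 := h2 0
    rw [pow_zero, div_one] at h4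
    refine (le_of_eq ?_).trans h4
    refine finsum_mem_congr rfl fun p hp => ?_
    rw [h3 p hp, hPR]
  · obtain ⟨M, hM⟩ := Pool.Agent.H454.TG.params hε
    refine ⟨M, fun m hm => ?_⟩
    obtain ⟨z₀, hz₀⟩ := Pool.Agent.H454.TG.params2 hε C m
    refine ⟨z₀, fun K _ _ _ P X z hS hz hX => ?_⟩
    obtain ⟨h1, h2, h3, hfin⟩ := hmain K m P X z hS
    obtain ⟨hM1, hM2⟩ := hM m hm
    have hN : (0 : ℝ) ≤ ((Tuples P).ncard : ℝ) := Nat.cast_nonneg _
    have hcard : ((Tuples P).ncard : ℝ) = (hfin.toFinset.card : ℝ) := by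
      rw [Set.ncard_eq_toFinset_card _ hfin]
    have hE : ((m : ℝ) + 1) * err C m X z ≤ ε ^ 3 / 2 * ((Tuples P).ncard : ℝ) :=
      hz₀ z hz X _ hX hN hS.one_le hC0.le
    have hch := Pool.Agent.H454.TG.cheb (T := hfin.toFinset) (m := m)
      (sh := fun r p => shareRoot p r) (pr := prob) (ρ := (23 / 27 : ℝ) ^ (m + 1))
      (E := err C m X z) hε (by positivity) (fun r => by
        have h4 := h2 r
        rw [finsum_mem_eq_finite_toFinset_sum _ hfin, hcard] at h4
        exact h4) (fun r hr p hp => by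
        have hp' : p ∈ Tuples P := hfin.mem_toFinset.1 hp
        have h5 : shareRoot p r = 0 := by
          have h6 : {e | e ∈ Twists p ∧ (SelRoot ((twist p e : 𝓞 K) : K)).ncard = 3 ^ (r + 1)} =
              ∅ := by
            rw [Set.eq_empty_iff_forall_notMem]
            rintro e ⟨he, he2⟩
            obtain ⟨r', s, h7, -, h8, -⟩ := (h1 p hp').2 e he
            rw [h7] at he2
            have := Nat.pow_right_injective (le_refl 2 |>.trans (by norm_num) : 2 ≤ 3) he2
            omega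
          have h7 : shareRoot p r = (({e | e ∈ Twists p ∧
            (SelRoot ((twist p e : 𝓞 K) : K)).ncard = 3 ^ (r + 1)}.ncard : ℕ) : ℝ) /
              ((Twists p).ncard : ℝ) := rfl
          rw [h7, h6, Set.ncard_empty, Nat.cast_zero, zero_div]
        have h6 : prob r ≤ 2 / 3 ^ r := Pool.Agent.H454.TG.p_le (Pool.Agent.H454.TG.iter_tendsto r)
        have h7 : 0 ≤ prob r := (Pool.Agent.H454.TG.prob_mem r).1
        have h8 : (2 : ℝ) / 3 ^ r ≤ 2 / 3 ^ m :=
          div_le_div_of_nonneg_left (by norm_num) (by positivity)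
            (pow_le_pow_right₀ (by norm_num) hr.le)
        rw [h5, zero_sub, abs_neg, abs_of_nonneg h7]
        linarith)
    have hset : {p | p ∈ Tuples P ∧ ¬ ((∀ r : ℕ, |shareRoot p r - prob r| ≤ ε) ∧
        |shareThree p - 2 * PRConst 3 0| ≤ ε)} =
        ((hfin.toFinset.filter fun p => ¬ ∀ r, |shareRoot p r - prob r| ≤ ε :
          Finset (Fin (m + 1) → 𝓞 K)) : Set (Fin (m + 1) → 𝓞 K)) := by
      ext p
      rw [Finset.coe_filter, Set.mem_ofPred_eq, Set.mem_ofPred_eq, hfin.mem_toFinset]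
      refine and_congr_right fun hp => not_congr ?_
      constructor
      · exact fun h => h.1
      · intro h
        refine ⟨h, ?_⟩
        rw [h3 p hp, hPR]
        exact h 0
    rw [hset, Set.ncard_coe_finset]
    have h9 : (0 : ℝ) < ε ^ 2 := by positivity
    refine le_of_mul_le_mul_right (hch.trans ?_) h9
    rw [← hcard]
    have h10 := mul_le_mul_of_nonneg_right hM1 hN
    nlinarith

end Pool.Agent.Results.MP_8cb858_nt.TwistGroups
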